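import Mathlib

/-! Cyclic arrangements of finite sets with prescribed neighbours of one element. -/

set_option autoImplicit false
set_option linter.all false

namespace Pool.Agent.Q251.WR

open Finset

theorem exists_cyc {W : Type*} [DecidableEq W] (O B : Finset W) (x : W) (hx : x ∈ O)
    (hB : B ⊆ O) (hxB : x ∉ B) (k : ℕ) (hk : #B = 2 * k) :
    ∃ G : ℤ → W, (∀ a, G a ∈ O) ∧ (∀ u ∈ O, ∃ a, G a = u) ∧
      (∀ a b, G a = G b ↔ (#O : ℤ) ∣ a - b) ∧ G 0 = x ∧
      ∀ z : ℤ, z ≠ 0 → |z| ≤ k → G z ∈ B := by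
  classical
  have hn : 2 * k < #O := by
    rw [← hk]
    exact card_lt_card ⟨hB, fun h => hxB (h hx)⟩
  haveI : NeZero (#O) := ⟨by omega⟩
  let s' : Finset (ZMod #O) := ((Icc (-(k : ℤ)) k).erase 0).image (fun z : ℤ => (z : ZMod #O))
  have hinj : ∀ a b : ℤ, |a| ≤ k → |b| ≤ k → (a : ZMod #O) = b → a = b := by
    intro a b ha hb e
    rw [ZMod.intCast_eq_intCast_iff_dvd_sub] at e
    have h1 : |b - a| ≤ 2 * k := by
      rw [abs_le] at *
      constructor <;> omega
    by_contra hne
    have h2 := Int.le_of_dvd (by positivity : (0:ℤ) < |b - a|) ((dvd_abs _ _).2 e) |>.trans h1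
    · push_cast at h2; omega
  have hs' : #s' = 2 * k := by
    rw [card_image_of_injOn]
    · rw [card_erase_of_mem (by simp), Int.card_Icc]; omega
    · intro a ha b hb e
      simp only [coe_erase, Set.mem_diff, mem_coe, mem_Icc] at ha hb
      exact hinj a b (abs_le.2 ha.1) (abs_le.2 hb.1) e
  let e : s' ≃ B := Finset.equivOfCardEq (by rw [hs', hk])
  let f : ZMod #O → W := fun z => if h : z ∈ s' then (e ⟨z, h⟩ : W) else x
  have h0 : (0 : ZMod #O) ∉ s' := by
    intro hc
    simp only [s', mem_image, mem_erase, mem_Icc] at hc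
    obtain ⟨a, ⟨ha, hb⟩, h⟩ := hc
    exact ha (hinj a 0 (abs_le.2 hb) (by simp) (by simpa using h))
  have hfs : ∀ z ∈ s', f z ∈ B := by
    intro z hz
    simp only [f, dif_pos hz]
    exact (e ⟨z, hz⟩).2
  have hf0 : f 0 = x := by simp only [f, dif_neg h0]
  obtain ⟨g, hg⟩ := Finset.exists_equiv_extend_of_card_eq (α := ZMod #O) (t := O)
    (ZMod.card _) (s := insert 0 s') (f := f) (by
      intro w hw
      rw [mem_image] at hw
      obtain ⟨z, hz, rfl⟩ := hw
      rw [mem_insert] at hz
      rcases hz with rfl | hz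
      · rw [hf0]; exact hx
      · exact hB (hfs z hz)) (by
      intro a ha b hb hab
      simp only [coe_insert, Set.mem_insert_iff, mem_coe] at ha hb
      rcases ha with rfl | ha <;> rcases hb with rfl | hb
      · rfl
      · rw [hf0] at hab; exact absurd (hab ▸ hfs b hb) hxB
      · rw [hf0] at hab; exact absurd (hab ▸ hfs a ha) hxB
      · simp only [f, dif_pos ha, dif_pos hb] at hab
        have := e.injective (Subtype.ext hab)
        simpa using this)
  refine ⟨fun a => (g (a : ZMod #O) : W), fun a => (g _).2, ?_, ?_, ?_, ?_⟩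
  · intro u hu
    obtain ⟨a, ha⟩ := ZMod.intCast_surjective (g.symm ⟨u, hu⟩)
    exact ⟨a, by simp [ha]⟩
  · intro a b
    constructor
    · intro h
      have := g.injective (Subtype.ext h)
      exact (ZMod.intCast_eq_intCast_iff_dvd_sub _ _ _).1 this.symm
    · intro h
      have := (ZMod.intCast_eq_intCast_iff_dvd_sub _ _ _).2 h
      simp only [this]
  · simp only [Int.cast_zero]
    rw [hg 0 (by simp), hf0]
  · intro z hz hzk
    have : (z : ZMod #O) ∈ s' := by
      simp only [s', mem_image, mem_erase, mem_Icc]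
      exact ⟨z, ⟨hz, abs_le.1 hzk⟩, rfl⟩
    show ((g (z : ZMod #O)) : W) ∈ B
    rw [hg _ (mem_insert_of_mem this)]
    exact hfs _ this

end Pool.Agent.Q251.WR
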