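import Pool.Agent.Q251.WR.Fan
import Pool.Agent.Q251.WR.Cyc

/-! Edge labels for one component of the orbit quotient. -/

set_option autoImplicit false
set_option linter.all false

namespace Pool.Agent.Q251.WR

open Finset Classical

variable {W : Type*} [Fintype W]

/-- The quotient graph. -/
def Qg (H : SimpleGraph W) (r : Setoid W) : SimpleGraph (Quotient r) where
  Adj c c' := c ≠ c' ∧ ∃ u v, (⟦u⟧ : Quotient r) = c ∧ (⟦v⟧ : Quotient r) = c' ∧ H.Adj u v
  symm := ⟨fun c c' h => ⟨h.1.symm, h.2.choose_spec.choose, h.2.choose,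
    h.2.choose_spec.choose_spec.2.1, h.2.choose_spec.choose_spec.1,
    h.2.choose_spec.choose_spec.2.2.symm⟩⟩
  loopless := ⟨fun c h => h.1 rfl⟩

/-- The component of `x1`. -/
def Cp (H : SimpleGraph W) (r : Setoid W) (x1 u : W) : Prop :=
  (Qg H r).Reachable (⟦x1⟧ : Quotient r) ⟦u⟧

theorem Cp_adj {H : SimpleGraph W} {r : Setoid W} {x1 u v : W} (h : H.Adj u v)
    (hu : Cp H r x1 u) : Cp H r x1 v := by
  unfold Cp at *
  by_cases e : (⟦u⟧ : Quotient r) = ⟦v⟧
  · rw [← e]; exact hu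
  · exact hu.trans (SimpleGraph.Adj.reachable ⟨e, u, v, rfl, rfl, h⟩)

theorem Cp_r {H : SimpleGraph W} {r : Setoid W} {x1 u v : W} (h : r u v)
    (hu : Cp H r x1 u) : Cp H r x1 v := by
  unfold Cp at *
  have : (⟦u⟧ : Quotient r) = ⟦v⟧ := Quotient.sound h
  rw [← this]; exact hu

/-- The shifts on all classes. -/
theorem exists_sh (H : SimpleGraph W) (r : Setoid W) (x1 : W) (k : ℕ)
    (hk : 2 * k ≤ #(univ.filter (fun v => H.Adj x1 v ∧ r x1 v))) :
    ∃ sh : ℤ → W → W, (∀ z u, r u (sh z u)) ∧ (∀ u, sh 0 u = u) ∧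
      (∀ z z' u, sh z' (sh z u) = sh (z + z') u) ∧
      (∀ z z' u, sh z u = sh z' u ↔ ((#(univ.filter (fun v => r u v)) : ℕ) : ℤ) ∣ z - z') ∧
      ∀ z : ℤ, z ≠ 0 → |z| ≤ k → H.Adj x1 (sh z x1) := by
  obtain ⟨B, hB1, hB2⟩ := exists_subset_card_eq hk
  have key : ∀ q : Quotient r, ∃ G : ℤ → W, (∀ a, (⟦G a⟧ : Quotient r) = q) ∧
      (∀ u : W, (⟦u⟧ : Quotient r) = q → ∃ a, G a = u) ∧
      (∀ a b, G a = G b ↔ ((#(univ.filter (fun v : W => (⟦v⟧ : Quotient r) = q)) : ℕ) : ℤ) ∣ a - b) ∧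
      (q = ⟦x1⟧ → G 0 = x1 ∧ ∀ z : ℤ, z ≠ 0 → |z| ≤ k → H.Adj x1 (G z)) := by
    intro q
    by_cases hq : q = ⟦x1⟧
    · obtain ⟨G, g1, g2, g3, g4, g5⟩ := exists_cyc
        (univ.filter (fun v : W => (⟦v⟧ : Quotient r) = q)) B x1 (by simp [hq]) (by
          intro v hv
          have := (mem_filter.1 (hB1 hv)).2.2
          simp only [mem_filter, mem_univ, true_and, hq]
          exact (Quotient.sound this).symm) (by
          intro hv
          exact (mem_filter.1 (hB1 hv)).2.1.ne rfl) k hB2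
      refine ⟨G, fun a => by simpa using g1 a, fun u hu => g2 u (by simpa using hu), g3,
        fun _ => ⟨g4, fun z hz hzk => (mem_filter.1 (hB1 (g5 z hz hzk))).2.1⟩⟩
    · obtain ⟨x, rfl⟩ := Quotient.exists_rep q
      obtain ⟨G, g1, g2, g3, g4, g5⟩ := exists_cyc
        (univ.filter (fun v : W => (⟦v⟧ : Quotient r) = ⟦x⟧)) ∅ x (by simp) (by simp) (by simp)
        0 (by simp)
      exact ⟨G, fun a => by simpa using g1 a, fun u hu => g2 u (by simpa using hu), g3,
        fun e => absurd e hq⟩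
  choose G g1 g2 g3 g4 using key
  have hN : ∀ u : W, univ.filter (fun v : W => (⟦v⟧ : Quotient r) = ⟦u⟧) =
      univ.filter (fun v => r u v) := by
    intro u
    ext v
    simp only [mem_filter, mem_univ, true_and]
    rw [Quotient.eq]
    exact ⟨fun h => r.symm h, fun h => r.symm h⟩
  choose idx hidx using fun u => g2 ⟦u⟧ u rfl
  have q1 : ∀ z u, (⟦G ⟦u⟧ (idx u + z)⟧ : Quotient r) = ⟦u⟧ := fun z u => g1 _ _
  refine ⟨fun z u => G ⟦u⟧ (idx u + z), ?_, ?_, ?_, ?_, ?_⟩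
  · intro z u
    exact r.symm (Quotient.exact (q1 z u))
  · intro u
    simp only [add_zero, hidx]
  · intro z z' u
    simp only
    rw [q1 z u]
    have h1 := hidx (G ⟦u⟧ (idx u + z))
    rw [q1 z u] at h1
    rw [g3] at h1
    rw [g3]
    convert h1 using 1
    ring
  · intro z z' u
    simp only
    rw [g3, hN]
    have : idx u + z - (idx u + z') = z - z' := by ring
    rw [this]
  · intro z hz hzk
    obtain ⟨a1, a2⟩ := g4 ⟦x1⟧ rfl
    have h1 : G ⟦x1⟧ (idx x1) = G ⟦x1⟧ 0 := by rw [hidx, a1]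
    rw [g3] at h1
    have h2 : G ⟦x1⟧ (idx x1 + z) = G ⟦x1⟧ z := by
      rw [g3]; convert h1 using 1; ring
    simp only
    rw [h2]
    exact a2 z hz hzk

/-- Enumeration of a finite set of colours. -/
noncomputable def en {n : ℕ} (A : Finset (Fin n)) (i : ℕ) : ℕ :=
  if h : i < #A then ((A.equivFin.symm ⟨i, h⟩ : A) : Fin n).val else 0

theorem en_mem {n : ℕ} (A : Finset (Fin n)) {i : ℕ} (h : i < #A) :
    ∃ α ∈ A, α.val = en A i := by
  unfold en
  rw [dif_pos h]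
  exact ⟨_, (A.equivFin.symm ⟨i, h⟩).2, rfl⟩

theorem en_inj {n : ℕ} (A : Finset (Fin n)) {i j : ℕ} (hi : i < #A) (hj : j < #A)
    (h : en A i = en A j) : i = j := by
  unfold en at h
  rw [dif_pos hi, dif_pos hj] at h
  have h1 := A.equivFin.symm.injective (Subtype.ext (Fin.ext h))
  simpa using h1

theorem dist_pred {X : Type*} {Q : SimpleGraph X} {a b : X} {d : ℕ} (h : Q.Reachable a b)
    (hd : Q.dist a b = d + 1) : ∃ c, Q.Adj b c ∧ Q.dist a c ≤ d := by
  obtain ⟨w, hw⟩ := h.symm.exists_walk_length_eq_dist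
  rw [Q.dist_comm, hd] at hw
  cases w with
  | nil => simp at hw
  | cons h p =>
    refine ⟨_, h, ?_⟩
    rw [Q.dist_comm]
    refine (SimpleGraph.dist_le p).trans ?_
    simp only [SimpleGraph.Walk.length_cons] at hw
    omega

end Pool.Agent.Q251.WR
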