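import Pool.Agent.Q251.WR.Class

/-! The auxiliary multigraph of one component. -/

set_option autoImplicit false
set_option linter.all false

namespace Pool.Agent.Q251.WR

open Finset Classical

variable {W : Type*} [Fintype W]

section

variable (H : SimpleGraph W) (r : Setoid W) (x1 : W) (k Δ : ℕ) (sh : ℤ → W → W)

/-- The pairs coloured with the fresh colours. -/
def Rr (u v : W) : Prop := ∃ z : ℤ, z ≠ 0 ∧ |z| ≤ k ∧ sh z u = v

/-- The multiplicities. -/
noncomputable def mu (u v : W) : ℕ :=
  if Cp H r x1 u ∧ u ≠ v then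
    (if H.Adj u v then 1 else 0) +
      (if r u v then Δ - (if Rr k sh u v then 1 else 0) else 0)
  else 0

end

variable {H : SimpleGraph W} {r : Setoid W} {x1 : W} {k Δ : ℕ} {sh : ℤ → W → W}

/-- The properties of the shifts. -/
structure Sh (H : SimpleGraph W) (r : Setoid W) (x1 : W) (k : ℕ) (sh : ℤ → W → W) : Prop where
  s1 : ∀ z u, r u (sh z u)
  s2 : ∀ u, sh 0 u = u
  s3 : ∀ z z' u, sh z' (sh z u) = sh (z + z') u
  s4 : ∀ z z' u, sh z u = sh z' u ↔ ((#(univ.filter (fun v => r u v)) : ℕ) : ℤ) ∣ z - z'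
  s5 : ∀ z : ℤ, z ≠ 0 → |z| ≤ k → H.Adj x1 (sh z x1)

theorem Sh.rsymm (S : Sh H r x1 k sh) {u v : W} (h : Rr k sh u v) : Rr k sh v u := by
  obtain ⟨z, h1, h2, rfl⟩ := h
  exact ⟨-z, by simpa using h1, by simpa using h2, by rw [S.s3]; simp [S.s2]⟩

theorem Sh.rr (S : Sh H r x1 k sh) {u v : W} (h : Rr k sh u v) : r u v := by
  obtain ⟨z, h1, h2, rfl⟩ := h
  exact S.s1 z u

theorem Sh.uniq (S : Sh H r x1 k sh) {u : W} (hu : 2 * k < #(univ.filter (fun v => r u v)))
    {z z' : ℤ} (hz : |z| ≤ k) (hz' : |z'| ≤ k) (h : sh z u = sh z' u) : z = z' := by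
  rw [S.s4] at h
  by_contra hne
  have h1 : |z - z'| ≤ 2 * k := by
    rw [abs_le] at *
    constructor <;> omega
  have h2 := Int.le_of_dvd (abs_pos.2 (sub_ne_zero.2 hne)) ((dvd_abs _ _).2 h)
  omega

theorem Sh.irr (S : Sh H r x1 k sh) {u : W} (hu : 2 * k < #(univ.filter (fun v => r u v))) :
    ¬ Rr k sh u u := by
  rintro ⟨z, h1, h2, h3⟩
  apply h1
  exact S.uniq hu h2 (by simp) (h3.trans (S.s2 u).symm)

theorem Sh.card (S : Sh H r x1 k sh) {u : W} (hu : 2 * k < #(univ.filter (fun v => r u v))) :
    #(univ.filter (fun v => Rr k sh u v)) = 2 * k := by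
  have : univ.filter (fun v => Rr k sh u v) =
      ((Icc (-(k : ℤ)) k).erase 0).image (fun z => sh z u) := by
    ext v
    simp only [mem_filter, mem_univ, true_and, mem_image, mem_erase, mem_Icc]
    constructor
    · rintro ⟨z, h1, h2, h3⟩
      exact ⟨z, ⟨h1, abs_le.1 h2⟩, h3⟩
    · rintro ⟨z, ⟨h1, h2⟩, h3⟩
      exact ⟨z, h1, abs_le.2 h2, h3⟩
  rw [this, card_image_of_injOn]
  · rw [card_erase_of_mem (by simp), Int.card_Icc]; omega
  · intro a ha b hb e
    simp only [coe_erase, Set.mem_diff, mem_coe, mem_Icc] at ha hb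
    exact S.uniq hu (abs_le.2 ha.1) (abs_le.2 hb.1) e

theorem mu_symm (S : Sh H r x1 k sh) (u v : W) : mu H r x1 k Δ sh u v = mu H r x1 k Δ sh v u := by
  have hA : H.Adj u v ↔ H.Adj v u := H.adj_comm u v
  have hr : r u v ↔ r v u := ⟨fun h => r.symm h, fun h => r.symm h⟩
  have hR : Rr k sh u v ↔ Rr k sh v u := ⟨S.rsymm, S.rsymm⟩
  unfold mu
  by_cases h : H.Adj u v ∨ r u v
  · have hC : Cp H r x1 u ↔ Cp H r x1 v := by
      rcases h with h | h
      · exact ⟨Cp_adj h, Cp_adj h.symm⟩
      · exact ⟨Cp_r h, Cp_r (r.symm h)⟩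
    simp only [hA, hr, hR, hC, ne_comm]
  · push Not at h
    have h' : ¬ H.Adj v u ∧ ¬ r v u := ⟨fun e => h.1 e.symm, fun e => h.2 (r.symm e)⟩
    rw [if_neg h.1, if_neg h.2, if_neg h'.1, if_neg h'.2]
    simp

theorem mu_self (v : W) : mu H r x1 k Δ sh v v = 0 := by
  unfold mu; simp

theorem mu_deg (S : Sh H r x1 k sh) (hΔ : 1 ≤ Δ) {u : W} (hC : Cp H r x1 u)
    (hu : 2 * k < #(univ.filter (fun v => r u v))) :
    ∑ w, mu H r x1 k Δ sh u w + 2 * k + Δ =
      #(univ.filter (fun v => H.Adj u v)) + Δ * #(univ.filter (fun v => r u v)) := by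
  have h1 : ∀ w, mu H r x1 k Δ sh u w + (if Rr k sh u w then 1 else 0) + (if w = u then Δ else 0)
      = (if H.Adj u w then 1 else 0) + (if r u w then Δ else 0) := by
    intro w
    unfold mu
    by_cases e : w = u
    · subst e
      have : r w w := r.refl w
      simp [S.irr hu, this]
    · have e' : u ≠ w := fun h => e h.symm
      rw [if_pos ⟨hC, e'⟩, if_neg e]
      by_cases hr : r u w
      · rw [if_pos hr, if_pos hr]
        split_ifs <;> omega
      · have : ¬ Rr k sh u w := fun h => hr (S.rr h)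
        rw [if_neg hr, if_neg this, if_neg hr]
  have h2 : ∑ w, (mu H r x1 k Δ sh u w + (if Rr k sh u w then 1 else 0) +
      (if w = u then Δ else 0)) = ∑ w, ((if H.Adj u w then 1 else 0) + (if r u w then Δ else 0)) :=
    sum_congr rfl (fun w _ => h1 w)
  rw [sum_add_distrib, sum_add_distrib, sum_add_distrib] at h2
  have h3 : ∑ w, (if Rr k sh u w then 1 else 0) = 2 * k := by
    rw [← S.card hu, card_filter]
  have h4 : ∑ w, (if w = u then Δ else 0) = Δ := by simp
  have h5 : ∑ w, (if H.Adj u w then 1 else 0) = #(univ.filter (fun v => H.Adj u v)) := by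
    rw [card_filter]
  have h6 : ∑ w, (if r u w then Δ else 0) = Δ * #(univ.filter (fun v => r u v)) := by
    rw [card_filter, mul_sum]
    apply sum_congr rfl
    intro w _
    split_ifs <;> simp
  rw [h3, h4, h5, h6] at h2
  exact h2

theorem mu_out {u : W} (h : ¬ Cp H r x1 u) (w : W) : mu H r x1 k Δ sh u w = 0 := by
  unfold mu; rw [if_neg (fun e => h e.1)]

theorem mu_le (u w : W) : mu H r x1 k Δ sh u w ≤ Δ + 1 := by
  unfold mu
  split_ifs <;> omega

theorem mu_le_one (u w : W) (h : ¬ r u w) : mu H r x1 k Δ sh u w ≤ 1 := by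
  unfold mu
  rw [if_neg h]
  split_ifs <;> omega

/-- The auxiliary multigraph is edge-colourable with `K - 2k` colours. -/
theorem exists_mu (S : Sh H r x1 k sh) (hΔ : 1 ≤ Δ) {K : ℕ}
    (hK : ∀ u, #(univ.filter (fun v => H.Adj u v)) + Δ * #(univ.filter (fun v => r u v)) ≤ K)
    (hE : ∀ u v a, r u v → H.Adj u a → ∃ b, H.Adj v b ∧ r a b)
    (hk' : #(univ.filter (fun v => H.Adj x1 v ∧ r x1 v)) ≤ 2 * k + 1)
    (hC : ∀ u, Cp H r x1 u → 2 * k < #(univ.filter (fun v => r u v))) :
    ∃ m : Fin (K - 2 * k) → W → W, IsCol m (mu H r x1 k Δ sh) := by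
  have hx1 : Cp H r x1 x1 := SimpleGraph.Reachable.refl _
  have deg : ∀ u, Cp H r x1 u → ∑ w, mu H r x1 k Δ sh u w + Δ ≤ K - 2 * k := by
    intro u hu
    have h1 := mu_deg S hΔ hu (hC u hu)
    have h2 := hK u
    omega
  have deg0 : ∀ u, ¬ Cp H r x1 u → ∑ w, mu H r x1 k Δ sh u w = 0 := by
    intro u hu
    exact sum_eq_zero (fun w _ => mu_out hu w)
  let h : W → ℕ := fun u => if u = x1 then 0 else (Qg H r).dist (⟦x1⟧ : Quotient r) ⟦u⟧ + 1
  refine peel (mu_symm S) mu_self h ?_ ?_
  · intro x
    by_cases hx : Cp H r x1 x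
    · have := deg x hx; omega
    · rw [deg0 x hx]; omega
  intro x
  have filt : ∀ z, ∑ w ∈ univ.filter (fun w => h x ≤ h w), mu H r x1 k Δ sh z w ≤
      ∑ w, mu H r x1 k Δ sh z w := fun z =>
    sum_le_sum_of_subset (filter_subset _ _)
  by_cases hx : Cp H r x1 x
  swap
  · refine ⟨x, fun z _ _ => ?_⟩
    rw [mu_out hx z]
    have h1 := filt z
    by_cases hz : Cp H r x1 z
    · have := deg z hz; omega
    · rw [deg0 z hz] at h1; omega
  by_cases hxx : x = x1
  · subst hxx
    -- the exceptional neighbour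
    have hex : ∃ z0, ∀ z, H.Adj x z → r x z → ¬ Rr k sh x z → z = z0 := by
      have hcard : #(univ.filter (fun v => (H.Adj x v ∧ r x v) ∧ ¬ Rr k sh x v)) ≤ 1 := by
        have h1 := card_filter_add_card_filter_not (s := univ.filter (fun v => H.Adj x v ∧ r x v))
          (fun v => Rr k sh x v)
        have h2 : (univ.filter (fun v => H.Adj x v ∧ r x v)).filter (fun v => Rr k sh x v) =
            univ.filter (fun v => Rr k sh x v) := by
          ext v
          simp only [mem_filter, mem_univ, true_and]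
          constructor
          · exact fun e => e.2
          · intro e
            refine ⟨⟨?_, S.rr e⟩, e⟩
            obtain ⟨z, e1, e2, rfl⟩ := e
            exact S.s5 z e1 e2
        rw [h2, S.card (hC x hx1), filter_filter] at h1
        omega
      rcases (univ.filter (fun v => (H.Adj x v ∧ r x v) ∧ ¬ Rr k sh x v)).eq_empty_or_nonempty
        with he | ⟨z0, hz0⟩
      · refine ⟨x, fun z h1 h2 h3 => ?_⟩
        have : z ∈ univ.filter (fun v => (H.Adj x v ∧ r x v) ∧ ¬ Rr k sh x v) := by
          simp [h1, h2, h3]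
        rw [he] at this
        simp at this
      · refine ⟨z0, fun z h1 h2 h3 => ?_⟩
        exact card_le_one.1 hcard z (by simp [h1, h2, h3]) z0 hz0
    obtain ⟨z0, hz0⟩ := hex
    refine ⟨z0, fun z hzx _ => ?_⟩
    by_cases hz : Cp H r x z
    · have h1 := filt z
      have h2 := deg z hz
      have h3 : mu H r x k Δ sh x z ≤ Δ + if z = z0 then 1 else 0 := by
        by_cases hz0' : z = z0
        · rw [if_pos hz0']; exact mu_le x z
        · rw [if_neg hz0']
          by_cases hr : r x z
          · unfold mu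
            rw [if_pos ⟨hx, fun e => hzx e.symm⟩, if_pos hr]
            by_cases hA : H.Adj x z
            · have : Rr k sh x z := by
                by_contra hc
                exact hz0' (hz0 z hA hr hc)
              rw [if_pos hA, if_pos this]; omega
            · rw [if_neg hA]; omega
          · have := mu_le_one (Δ := Δ) (k := k) (sh := sh) (x1 := x) (H := H) x z hr
            omega
      omega
    · have h1 := filt z
      rw [deg0 z hz] at h1
      rw [mu_symm S x z, mu_out hz]
      omega
  · refine ⟨x, fun z hzx hh => ?_⟩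
    rw [if_neg hzx]
    by_cases hz : Cp H r x1 z
    · have h2 := deg z hz
      by_cases hr : r x z
      · have hw : ∃ w, h w < h x ∧ 1 ≤ mu H r x1 k Δ sh z w := by
          by_cases hr1 : r x1 x
          · refine ⟨x1, ?_, ?_⟩
            · simp [h, hxx]
            · have hzx1 : z ≠ x1 := by
                rintro rfl
                have : h x ≤ 0 := by simpa [h] using hh
                simp [h, hxx] at this
              rw [mu_symm S]
              unfold mu
              rw [if_pos ⟨hx1, fun e => hzx1 e.symm⟩, if_pos (r.trans hr1 hr)]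
              by_cases hR : Rr k sh x1 z
              · have hA : H.Adj x1 z := by
                  obtain ⟨a, e1, e2, rfl⟩ := hR
                  exact S.s5 a e1 e2
                rw [if_pos hR, if_pos hA]; omega
              · rw [if_neg hR]; omega
          · have hd : (Qg H r).dist (⟦x1⟧ : Quotient r) ⟦x⟧ ≠ 0 := by
              intro e
              rw [hx.dist_eq_zero_iff] at e
              exact hr1 (Quotient.exact e)
            obtain ⟨d, hd⟩ := Nat.exists_eq_succ_of_ne_zero hd
            obtain ⟨c, c1, c2⟩ := dist_pred hx hd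
            obtain ⟨_, u, v, e1, e2, e3⟩ := c1
            have hru : r u z := r.trans (Quotient.exact e1) hr
            obtain ⟨b, hb1, hb2⟩ := hE u z v hru e3
            have hqb : (⟦b⟧ : Quotient r) = c := by rw [← e2]; exact (Quotient.sound hb2).symm
            refine ⟨b, ?_, ?_⟩
            · simp only [h, if_neg hxx, hqb, hd]
              split_ifs <;> omega
            · unfold mu
              rw [if_pos ⟨hz, hb1.ne⟩, if_pos hb1]
              omega
        obtain ⟨w, w1, w2⟩ := hw
        have h3 : ∑ w ∈ univ.filter (fun w => h x ≤ h w), mu H r x1 k Δ sh z w + 1 ≤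
            ∑ w, mu H r x1 k Δ sh z w := by
          rw [← sum_filter_add_sum_filter_not univ (fun w => h x ≤ h w)]
          apply Nat.add_le_add_left
          refine w2.trans (single_le_sum (f := fun w => mu H r x1 k Δ sh z w)
            (fun _ _ => Nat.zero_le _) ?_)
          simp [w1]
        have h4 := mu_le (H := H) (r := r) (x1 := x1) (k := k) (Δ := Δ) (sh := sh) x z
        omega
      · have h1 := filt z
        have := mu_le_one (Δ := Δ) (k := k) (sh := sh) (x1 := x1) (H := H) x z hr
        omega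
    · have h1 := filt z
      rw [deg0 z hz] at h1
      rw [mu_symm S x z, mu_out hz]
      omega

end Pool.Agent.Q251.WR
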