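import Mathlib

/-! Proper edge colourings of finite multigraphs as families of involutions: Vizing fans, Kempe
changes, and a colouring theorem for multigraphs with a suitable vertex order. -/

set_option autoImplicit false
set_option linter.all false

namespace Pool.Agent.Q251.WR

open Finset

variable {V : Type*} [Fintype V] [DecidableEq V] {k : ℕ}

/-- `m` is a proper edge colouring with `k` colours of the multigraph with multiplicities `μ`. -/
structure IsCol (m : Fin k → V → V) (μ : V → V → ℕ) : Prop where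
  inv : ∀ α v, m α (m α v) = v
  cnt : ∀ u v, u ≠ v → #{α | m α u = v} = μ u v

/-- Adding an edge. -/
def add (ν : V → V → ℕ) (x y : V) (u v : V) : ℕ :=
  ν u v + if (u = x ∧ v = y) ∨ (u = y ∧ v = x) then 1 else 0

theorem IsCol.symm {m : Fin k → V → V} {μ : V → V → ℕ} (h : IsCol m μ) {α : Fin k} {u v : V}
    (e : m α u = v) : m α v = u := by rw [← e]; exact h.inv α u

/-- Colouring a new edge. -/
def fillm (m : Fin k → V → V) (α : Fin k) (x y : V) (β : Fin k) (v : V) : V :=
  if β = α then (if v = x then y else if v = y then x else m β v) else m β v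

theorem IsCol.fill {m : Fin k → V → V} {ν : V → V → ℕ} (h : IsCol m ν) {α : Fin k} {x y : V}
    (hxy : x ≠ y) (hx : m α x = x) (hy : m α y = y) :
    IsCol (fillm m α x y) (add ν x y) := by
  constructor
  · intro β v
    unfold fillm
    by_cases hb : β = α
    · subst hb
      simp only [if_true]
      by_cases h1 : v = x
      · subst h1; simp [hxy.symm]
      · by_cases h2 : v = y
        · subst h2; simp [hxy.symm]
        · have h3 : m β v ≠ x := fun e => h1 (by rw [← h.symm e, hx])
          have h4 : m β v ≠ y := fun e => h2 (by rw [← h.symm e, hy])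
          simp [h1, h2, h3, h4, h.inv]
    · simp [hb, h.inv]
  · intro u v huv
    unfold add
    rw [← h.cnt u v huv]
    by_cases hc : (u = x ∧ v = y) ∨ (u = y ∧ v = x)
    · rw [if_pos hc]
      have : univ.filter (fun β => fillm m α x y β u = v) =
          insert α (univ.filter (fun β => m β u = v)) := by
        ext β
        simp only [mem_filter, mem_univ, true_and, mem_insert]
        unfold fillm
        by_cases hb : β = α
        · subst hb
          rcases hc with ⟨rfl, rfl⟩ | ⟨rfl, rfl⟩
          · simp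
          · simp [huv]
        · simp [hb]
      rw [this, card_insert_of_notMem]
      simp only [mem_filter, mem_univ, true_and]
      rcases hc with ⟨rfl, rfl⟩ | ⟨rfl, rfl⟩
      · rw [hx]; exact huv
      · rw [hy]; exact huv
    · rw [if_neg hc, add_zero]
      congr 1
      ext β
      simp only [mem_filter, mem_univ, true_and]
      unfold fillm
      by_cases hb : β = α
      · subst hb
        simp only [if_true]
        by_cases h1 : u = x
        · subst h1
          have : v ≠ y := fun e => hc (Or.inl ⟨rfl, e⟩)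
          simp [hx, huv, this.symm]
        · by_cases h2 : u = y
          · subst h2
            have : v ≠ x := fun e => hc (Or.inr ⟨rfl, e⟩)
            simp [hy, huv, this.symm, h1]
          · simp [h1, h2]
      · simp [hb]

/-- Removing an edge. -/
theorem IsCol.unfill {m : Fin k → V → V} {ν : V → V → ℕ} (h : IsCol m ν) {α : Fin k} {x y : V}
    (hxy : x ≠ y) (hx : m α x = y) (hdiag : ∀ v, ν v v = 0) :
    ∃ (m' : Fin k → V → V) (ν' : V → V → ℕ), IsCol m' ν' ∧ add ν' x y = ν ∧
      (∀ β, β ≠ α → m' β = m β) ∧ m' α x = x ∧ m' α y = y ∧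
      (∀ v, v ≠ x → v ≠ y → m' α v = m α v) ∧ (∀ v, ν' v v = 0) := by
  have hy : m α y = x := h.symm hx
  refine ⟨fun β v => if β = α then (if v = x then x else if v = y then y else m β v) else m β v,
    fun u v => ν u v - if (u = x ∧ v = y) ∨ (u = y ∧ v = x) then 1 else 0, ⟨?_, ?_⟩, ?_, ?_, ?_, ?_,
    ?_, ?_⟩
  · intro β v
    by_cases hb : β = α
    · subst hb
      simp only [if_true]
      by_cases h1 : v = x
      · subst h1; simp
      · by_cases h2 : v = y
        · subst h2; simp [hxy.symm]
        · have h3 : m β v ≠ x := fun e => h2 (by rw [← h.symm e, hx])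
          have h4 : m β v ≠ y := fun e => h1 (by rw [← h.symm e, hy])
          simp [h1, h2, h3, h4, h.inv]
    · simp [hb, h.inv]
  · intro u v huv
    rw [← h.cnt u v huv]
    by_cases hc : (u = x ∧ v = y) ∨ (u = y ∧ v = x)
    · rw [if_pos hc]
      have hmem : α ∈ univ.filter (fun β => m β u = v) := by
        simp only [mem_filter, mem_univ, true_and]
        rcases hc with ⟨rfl, rfl⟩ | ⟨rfl, rfl⟩
        · exact hx
        · exact hy
      rw [← card_erase_of_mem hmem]
      congr 1
      ext β
      simp only [mem_filter, mem_univ, true_and, mem_erase]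
      by_cases hb : β = α
      · subst hb
        rcases hc with ⟨rfl, rfl⟩ | ⟨rfl, rfl⟩
        · simp [huv]
        · simp [huv]
      · simp [hb]
    · rw [if_neg hc, Nat.sub_zero]
      congr 1
      ext β
      simp only [mem_filter, mem_univ, true_and]
      by_cases hb : β = α
      · subst hb
        simp only [if_true]
        by_cases h1 : u = x
        · subst h1
          have : v ≠ y := fun e => hc (Or.inl ⟨rfl, e⟩)
          simp [hx, huv, this.symm]
        · by_cases h2 : u = y
          · subst h2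
            have : v ≠ x := fun e => hc (Or.inr ⟨rfl, e⟩)
            simp [hy, huv, this.symm, h1]
          · simp [h1, h2]
      · simp [hb]
  · funext u v
    unfold add
    simp only
    by_cases hc : (u = x ∧ v = y) ∨ (u = y ∧ v = x)
    · simp only [if_pos hc]
      have hmem : 0 < ν u v := by
        have huv : u ≠ v := by
          rcases hc with ⟨rfl, rfl⟩ | ⟨rfl, rfl⟩
          · exact hxy
          · exact hxy.symm
        rw [← h.cnt u v huv]
        apply card_pos.2
        refine ⟨α, ?_⟩
        simp only [mem_filter, mem_univ, true_and]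
        rcases hc with ⟨rfl, rfl⟩ | ⟨rfl, rfl⟩
        · exact hx
        · exact hy
      omega
    · simp only [if_neg hc]; omega
  · intro β hb; funext v; simp [hb]
  · simp
  · simp [hxy.symm]
  · intro v h1 h2; simp [h1, h2]
  · intro v; simp [hdiag]

theorem add_comm' (ν : V → V → ℕ) (x y z : V) : add (add ν x y) x z = add (add ν x z) x y := by
  funext u v; unfold add; omega

/-- A fan path. -/
inductive Chain (m : Fin k → V → V) (x : V) : V → List (Fin k) → V → Prop
  | nil (y : V) : Chain m x y [] y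
  | cons (y : V) (α : Fin k) (L : List (Fin k)) (z : V) : m α y = y → m α x ≠ x →
      Chain m x (m α x) L z → Chain m x y (α :: L) z

theorem Chain.cong {m m' : Fin k → V → V} {x y z : V} {L : List (Fin k)}
    (h : Chain m x y L z) (hm : ∀ β ∈ L, m' β = m β) : Chain m' x y L z := by
  induction h with
  | nil y => exact Chain.nil y
  | cons y α L z h1 h2 h3 ih =>
    have e : m' α = m α := hm α (by simp)
    refine Chain.cons y α L z (by rw [e]; exact h1) (by rw [e]; exact h2) ?_
    rw [e]
    exact ih (fun β hβ => hm β (by simp [hβ]))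

theorem Chain.snoc {m : Fin k → V → V} {x y z : V} {L : List (Fin k)}
    (h : Chain m x y L z) {β : Fin k} (h1 : m β z = z) (h2 : m β x ≠ x) :
    Chain m x y (L ++ [β]) (m β x) := by
  induction h with
  | nil y => exact Chain.cons y β [] _ h1 h2 (Chain.nil _)
  | cons y α L z g1 g2 g3 ih => exact Chain.cons y α _ _ g1 g2 (ih h1)

theorem Chain.pre {m : Fin k → V → V} {x y z : V} {L : List (Fin k)}
    (h : Chain m x y L z) {β : Fin k} (hβ : β ∈ L) :
    ∃ L', L'.Sublist L ∧ Chain m x y L' (m β x) := by
  induction h with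
  | nil y => simp at hβ
  | cons y α L z g1 g2 g3 ih =>
    by_cases e : β = α
    · subst e
      exact ⟨[β], by simp, Chain.cons y β [] _ g1 g2 (Chain.nil _)⟩
    · have : β ∈ L := by simpa [e] using hβ
      obtain ⟨L', h1, h2⟩ := ih this
      exact ⟨α :: L', h1.cons_cons _, Chain.cons y α _ _ g1 g2 h2⟩

theorem Chain.ne {m : Fin k → V → V} {x y z : V} {L : List (Fin k)}
    (h : Chain m x y L z) (hy : y ≠ x) : z ≠ x := by
  induction h with
  | nil y => exact hy
  | cons y α L z g1 g2 g3 ih => exact ih g2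

/-- Shifting along a fan path. -/
theorem shift {x : V} {γ : Fin k} : ∀ (L : List (Fin k)) (y z : V) (m : Fin k → V → V)
    (ν : V → V → ℕ), IsCol m ν → (∀ v, ν v v = 0) → y ≠ x → Chain m x y L z → L.Nodup →
    m γ z = z → m γ x = x → ∃ m' : Fin k → V → V, IsCol m' (add ν x y) := by
  intro L
  induction L with
  | nil =>
    intro y z m ν h hd hy hc _ h1 h2
    cases hc
    exact ⟨_, h.fill hy.symm h2 h1⟩
  | cons α L ih =>
    intro y z m ν h hd hy hc hn h1 h2
    cases hc with
    | cons _ _ _ _ g1 g2 g3 =>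
    rw [List.nodup_cons] at hn
    have hne : m α x ≠ y := fun e => hy (by rw [← h.symm e, g1])
    obtain ⟨m1, ν1, c1, c2, c3, c4, c5, c6, c7⟩ := h.unfill (α := α) (x := x) (y := m α x)
      (fun e => g2 e.symm) rfl hd
    have c8 : m1 α y = y := by rw [c6 y hy hne.symm, g1]
    have c9 := c1.fill hy.symm c4 c8
    have hγ : γ ≠ α := by rintro rfl; exact g2 h2
    have e1 : ∀ β, β ≠ α → fillm m1 α x y β = m β := by
      intro β hβ; funext v; unfold fillm; rw [if_neg hβ, c3 β hβ]
    have e2 : add (add ν1 x y) x (m α x) = add ν x y := by rw [add_comm', c2]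
    have e3 := ih (m α x) z (fillm m1 α x y) (add ν1 x y) c9 ?_ g2 ?_ hn.2 ?_ ?_
    · rwa [e2] at e3
    · intro v; unfold add; rw [c7]; simp only [zero_add]; rw [if_neg]
      rintro (⟨a, b⟩ | ⟨a, b⟩)
      · exact hy (b ▸ a ▸ rfl)
      · exact hy (a ▸ b ▸ rfl)
    · apply g3.cong
      intro β hβ
      exact e1 β (fun e => hn.1 (e ▸ hβ))
    · rw [e1 γ hγ]; exact h1
    · rw [e1 γ hγ]; exact h2

/-- The result of a Kempe change. -/
def kmp (m : Fin k → V → V) (β γ : Fin k) (S : Set V) [DecidablePred (· ∈ S)] (α : Fin k)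
    (v : V) : V := if v ∈ S then m (Equiv.swap β γ α) v else m α v

/-- Kempe change on a closed set. -/
theorem IsCol.kempe {m : Fin k → V → V} {ν : V → V → ℕ} (h : IsCol m ν) (β γ : Fin k)
    (S : Set V) [DecidablePred (· ∈ S)]
    (hβ : ∀ v, m β v ∈ S ↔ v ∈ S) (hγ : ∀ v, m γ v ∈ S ↔ v ∈ S) :
    IsCol (kmp m β γ S) ν := by
  constructor
  · intro α v
    unfold kmp
    by_cases h1 : α = β
    · subst h1
      rw [Equiv.swap_apply_left]
      by_cases hv : v ∈ S
      · rw [if_pos hv, if_pos ((hγ v).2 hv), h.inv]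
      · rw [if_neg hv, if_neg (fun e => hv ((hβ v).1 e)), h.inv]
    · by_cases h2 : α = γ
      · subst h2
        rw [Equiv.swap_apply_right]
        by_cases hv : v ∈ S
        · rw [if_pos hv, if_pos ((hβ v).2 hv), h.inv]
        · rw [if_neg hv, if_neg (fun e => hv ((hγ v).1 e)), h.inv]
      · rw [Equiv.swap_apply_of_ne_of_ne h1 h2]
        split_ifs <;> exact h.inv _ _
  · intro u v huv
    unfold kmp
    rw [← h.cnt u v huv]
    by_cases hu : u ∈ S
    · simp only [if_pos hu]
      refine card_bij (fun α _ => Equiv.swap β γ α) ?_ ?_ ?_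
      · intro α; simp
      · intro a _ b _ e; exact (Equiv.swap β γ).injective e
      · intro b hb
        refine ⟨Equiv.swap β γ b, ?_, ?_⟩
        · simpa using hb
        · simp
    · simp only [if_neg hu]

/-- Fan paths survive a Kempe change, possibly truncated. -/
theorem Chain.trunc {m : Fin k → V → V} {x y z : V} {L : List (Fin k)} {β γ : Fin k}
    {S : Set V} [DecidablePred (· ∈ S)] (hxS : x ∉ S) (hγx : m γ x = x)
    (h : Chain m x y L z) (hz : z ∈ S) (hzβ : m β z = z) :
    ∃ (L' : List (Fin k)) (z' : V), L'.Sublist L ∧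
      Chain (kmp m β γ S) x y L' z' ∧ kmp m β γ S γ z' = z' := by
  induction h with
  | nil y =>
    refine ⟨[], y, by simp, Chain.nil y, ?_⟩
    simp only [kmp, if_pos hz, Equiv.swap_apply_right, hzβ]
  | cons y α L z g1 g2 g3 ih =>
    by_cases hc : α = β ∧ y ∈ S
    · obtain ⟨rfl, hy⟩ := hc
      refine ⟨[], y, by simp, Chain.nil y, ?_⟩
      simp only [kmp, if_pos hy, Equiv.swap_apply_right, g1]
    · obtain ⟨L', z', a1, a2, a3⟩ := ih hz hzβ
      refine ⟨α :: L', z', a1.cons_cons _, ?_, a3⟩
      have hαγ : α ≠ γ := by rintro rfl; exact g2 hγx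
      have ex : kmp m β γ S α x = m α x := by
        simp only [kmp, if_neg hxS]
      refine Chain.cons y α L' z' ?_ (by rw [ex]; exact g2) (by rw [ex]; exact a2)
      unfold kmp
      split_ifs with hy
      · have : α ≠ β := fun e => hc ⟨e, hy⟩
        rw [Equiv.swap_apply_of_ne_of_ne this hαγ, g1]
      · exact g1

/-- In the two-coloured component of a vertex missing one of the colours there is at most one
further vertex missing the other one. -/
theorem comp {V : Type*} (b c : V → V) (hb : ∀ v, b (b v) = v) (hc : ∀ v, c (c v) = v) (x : V)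
    (hx : c x = x) : ∃ S : Set V, x ∈ S ∧ (∀ v, b v ∈ S ↔ v ∈ S) ∧ (∀ v, c v ∈ S ↔ v ∈ S) ∧
      ∀ z z', z ∈ S → z' ∈ S → b z = z → b z' = z' → z = z' := by
  let pb : Equiv.Perm V := ⟨b, b, hb, hb⟩
  let pc : Equiv.Perm V := ⟨c, c, hc, hc⟩
  let τ : Equiv.Perm V := pc * pb
  have hτ : ∀ v, τ v = c (b v) := fun v => rfl
  have hτi : ∀ v, τ⁻¹ v = b (c v) := by
    intro v
    rw [Equiv.Perm.inv_eq_iff_eq, hτ, hb, hc]
  have hconj : ∀ (i : ℤ), pc * τ ^ i = τ ^ (-i) * pc := by
    intro i
    have h1 : pc * τ * pc⁻¹ = τ⁻¹ := by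
      ext v
      have e : pc⁻¹ v = c v := by
        rw [Equiv.Perm.inv_eq_iff_eq]; exact (hc v).symm
      simp only [Equiv.Perm.mul_apply]
      rw [e, hτi, hτ]
      exact hc _
    have h2 : pc * τ ^ i * pc⁻¹ = τ ^ (-i) := by
      rw [← conj_zpow, h1, inv_zpow, zpow_neg]
    rw [← h2]
    group
  have hcτ : ∀ i : ℤ, c ((τ ^ i) x) = (τ ^ (-i)) x := by
    intro i
    have := congrArg (fun (p : Equiv.Perm V) => p x) (hconj i)
    simp only [Equiv.Perm.mul_apply] at this
    have e : pc x = x := hx
    rw [e] at this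
    exact this
  have hbτ : ∀ i : ℤ, b ((τ ^ i) x) = (τ ^ (-i - 1)) x := by
    intro i
    have h1 : b ((τ ^ i) x) = c (τ ((τ ^ i) x)) := by rw [hτ, hc]
    have h2 : τ ((τ ^ i) x) = (τ ^ (i + 1)) x := by
      rw [add_comm, zpow_add, zpow_one]; rfl
    rw [h1, h2, hcτ]
    congr 2; ring
  refine ⟨{v | ∃ i : ℤ, (τ ^ i) x = v}, ⟨0, by simp⟩, ?_, ?_, ?_⟩
  · have key : ∀ v, (∃ i : ℤ, (τ ^ i) x = v) → ∃ i : ℤ, (τ ^ i) x = b v := by
      rintro v ⟨i, rfl⟩; exact ⟨-i - 1, (hbτ i).symm⟩
    intro v
    constructor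
    · intro h; have := key _ h; rw [hb] at this; exact this
    · intro h; exact key v h
  · have key : ∀ v, (∃ i : ℤ, (τ ^ i) x = v) → ∃ i : ℤ, (τ ^ i) x = c v := by
      rintro v ⟨i, rfl⟩; exact ⟨-i, (hcτ i).symm⟩
    intro v
    constructor
    · intro h; have := key _ h; rw [hc] at this; exact this
    · intro h; exact key v h
  · rintro z z' ⟨i, rfl⟩ ⟨j, rfl⟩ hz hz'
    rw [hbτ] at hz hz'
    have fix : ∀ a b : ℤ, (τ ^ a) x = (τ ^ b) x → (τ ^ (b - a)) x = x := by
      intro a b e
      have : (τ ^ (b - a)) x = (τ ^ (-a)) ((τ ^ b) x) := by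
        rw [← Equiv.Perm.mul_apply, ← zpow_add]; congr 2; ring
      rw [this, ← e, ← Equiv.Perm.mul_apply, ← zpow_add]; simp
    have f1 := fix _ _ hz
    have f2 := fix _ _ hz'
    have pw : ∀ (a n : ℤ), (τ ^ a) x = x → (τ ^ (a * n)) x = x := by
      intro a n e
      rw [zpow_mul]
      exact Equiv.Perm.zpow_apply_eq_self_of_apply_eq_self e n
    have g1' := pw _ (-j) f1
    have g2' := pw _ (i) f2
    -- (2i+1)(-j) + (2j+1) i = i - j
    have g3 : (τ ^ (i - j)) x = x := by
      have e : i - j = (i - (-i - 1)) * (-j) + (j - (-j - 1)) * i := by ring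
      rw [e, zpow_add, Equiv.Perm.mul_apply, g2', g1']
    have : (τ ^ i) x = (τ ^ j) ((τ ^ (i - j)) x) := by
      rw [← Equiv.Perm.mul_apply, ← zpow_add]; congr 2; ring
    rw [this, g3]

/-- The degree. -/
theorem IsCol.miss {m : Fin k → V → V} {ν : V → V → ℕ} (h : IsCol m ν) (hd : ∀ v, ν v v = 0)
    (z : V) : #{α | m α z = z} + ∑ w, ν z w = k := by
  have h1 : (univ : Finset (Fin k)).card = ∑ w : V, #{α | m α z = w} :=
    card_eq_sum_card_fiberwise (f := fun α => m α z) (t := univ) (fun _ _ => mem_univ _)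
  rw [card_univ, Fintype.card_fin] at h1
  have h2 : ∑ w : V, #{α | m α z = w} = #{α | m α z = z} + ∑ w ∈ univ.erase z, ν z w := by
    rw [← add_sum_erase _ _ (mem_univ z)]
    congr 1
    apply sum_congr rfl
    intro w hw
    exact h.cnt z w (ne_of_mem_erase hw).symm
  have h3 : ∑ w, ν z w = ∑ w ∈ univ.erase z, ν z w := by
    rw [← add_sum_erase _ _ (mem_univ z), hd, zero_add]
  omega

theorem sum_add' (ν : V → V → ℕ) {x y : V} (hxy : x ≠ y) (z : V) (hz : z ≠ x) :
    ∑ w, add ν x y z w = ∑ w, ν z w + if z = y then 1 else 0 := by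
  unfold add
  rw [sum_add_distrib]
  congr 1
  by_cases h : z = y
  · subst h
    simp [hz]
  · simp [hz, h]

/-- Vizing's fan inequality. -/
theorem fan {m : Fin k → V → V} {ν : V → V → ℕ} {x y0 : V} (h : IsCol m ν)
    (hd : ∀ v, ν v v = 0) (hxy : y0 ≠ x) (hx : ∑ w, add ν x y0 x w ≤ k)
    (hZ : ∀ Z : Finset V, y0 ∈ Z → x ∉ Z →
      ∑ z ∈ Z, (∑ w, add ν x y0 z w + add ν x y0 x z) ≤ k * #Z + 1) :
    ∃ m' : Fin k → V → V, IsCol m' (add ν x y0) := by
  classical
  by_contra hno
  have hx1 : ∑ w, ν x w + 1 ≤ k := by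
    have : ∑ w, add ν x y0 x w = ∑ w, ν x w + 1 := by
      unfold add
      rw [sum_add_distrib]
      congr 1
      simp [hxy.symm]
    omega
  obtain ⟨γ, hγ⟩ : ∃ γ, m γ x = x := by
    have := h.miss hd x
    have h2 : 0 < #{α | m α x = x} := by omega
    obtain ⟨γ, hγ⟩ := card_pos.1 h2
    exact ⟨γ, by simpa using hγ⟩
  let Z : Finset V := univ.filter (fun z => ∃ L : List (Fin k), L.Nodup ∧ Chain m x y0 L z)
  have hZm : ∀ z, z ∈ Z ↔ ∃ L : List (Fin k), L.Nodup ∧ Chain m x y0 L z := by
    intro z; simp [Z]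
  have hy0 : y0 ∈ Z := (hZm y0).2 ⟨[], List.nodup_nil, Chain.nil _⟩
  have hxZ : x ∉ Z := by
    intro hc
    obtain ⟨L, _, h2⟩ := (hZm x).1 hc
    exact h2.ne hxy rfl
  have one : ∀ z ∈ Z, ∀ α, m α z = z → m α x ≠ x := by
    intro z hz α h1 h2
    obtain ⟨L, g1, g2⟩ := (hZm z).1 hz
    exact hno (shift L y0 z m ν h hd hxy g2 g1 h1 h2)
  have cl : ∀ z ∈ Z, ∀ α, m α z = z → m α x ∈ Z := by
    intro z hz α h1
    obtain ⟨L, g1, g2⟩ := (hZm z).1 hz
    by_cases hα : α ∈ L
    · obtain ⟨L', a1, a2⟩ := g2.pre hα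
      exact (hZm _).2 ⟨L', a1.nodup g1, a2⟩
    · refine (hZm _).2 ⟨L ++ [α], ?_, g2.snoc h1 (one z hz α h1)⟩
      rw [List.nodup_append]
      refine ⟨g1, List.nodup_singleton _, ?_⟩
      intro a ha b hb
      simp only [List.mem_singleton] at hb
      rintro rfl
      exact hα (hb ▸ ha)
  have two : ∀ z ∈ Z, ∀ z' ∈ Z, z ≠ z' → ∀ β, m β z = z → m β z' ≠ z' := by
    intro z hz z' hz' hne β h1 h2
    obtain ⟨S, s1, s2, s3, s4⟩ := comp (m β) (m γ) (h.inv β) (h.inv γ) x hγ
    have key : ∀ w ∈ Z, m β w = w → w ∉ S → False := by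
      intro w hw hβw hwS
      obtain ⟨L, g1, g2⟩ := (hZm w).1 hw
      have hk := h.kempe β γ Sᶜ (fun v => by simp [s2]) (fun v => by simp [s3])
      have hxS : x ∉ Sᶜ := by simpa using s1
      obtain ⟨L', z'', a1, a2, a3⟩ := g2.trunc (β := β) (γ := γ) (S := Sᶜ) hxS hγ
        (by simpa using hwS) hβw
      refine hno (shift L' y0 z'' _ ν hk hd hxy a2 (a1.nodup g1) a3 ?_)
      unfold kmp
      rw [if_neg hxS]; exact hγ
    by_cases hzS : z ∈ S
    · by_cases hzS' : z' ∈ S
      · exact hne (s4 z z' hzS hzS' h1 h2)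
      · exact key z' hz' h2 hzS'
    · exact key z hz h1 hzS
  have h1 : #(Z.biUnion (fun z => univ.filter (fun α => m α z = z))) =
      ∑ z ∈ Z, #{α | m α z = z} := by
    apply card_biUnion
    intro z hz z' hz' hne
    refine Finset.disjoint_left.2 ?_
    intro α ha hb
    simp only [mem_filter, mem_univ, true_and] at ha hb
    exact two z hz z' hz' hne α ha hb
  have h2 : #(Z.biUnion (fun z => univ.filter (fun α => m α z = z))) ≤
      #(univ.filter (fun α => m α x ∈ Z)) := by
    apply card_le_card
    intro α hα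
    simp only [mem_biUnion, mem_filter, mem_univ, true_and] at hα ⊢
    obtain ⟨z, hz, hα⟩ := hα
    exact cl z hz α hα
  have h3 : #(univ.filter (fun α => m α x ∈ Z)) = ∑ z ∈ Z, ν x z := by
    rw [card_eq_sum_card_fiberwise (f := fun α => m α x) (t := Z)
      (fun α hα => by simpa using hα)]
    apply sum_congr rfl
    intro z hz
    rw [← h.cnt x z (fun e => hxZ (e ▸ hz)), filter_filter]
    congr 1
    ext α
    simp only [mem_filter, mem_univ, true_and]
    constructor
    · exact fun e => e.2
    · intro e; exact ⟨by rw [e]; exact hz, e⟩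
  have h4 : ∑ z ∈ Z, (#{α | m α z = z} + ∑ w, ν z w) = k * #Z := by
    rw [sum_congr rfl (fun z _ => h.miss hd z), sum_const, smul_eq_mul, mul_comm]
  have h5 : ∑ z ∈ Z, (∑ w, add ν x y0 z w + add ν x y0 x z) =
      ∑ z ∈ Z, (∑ w, ν z w) + ∑ z ∈ Z, ν x z + 2 := by
    have : ∀ z ∈ Z, (∑ w, add ν x y0 z w + add ν x y0 x z) =
        (∑ w, ν z w + ν x z) + (if z = y0 then 2 else 0) := by
      intro z hz
      have hzx : z ≠ x := fun e => hxZ (e ▸ hz)
      rw [sum_add' ν hxy.symm z hzx]
      unfold add
      by_cases e : z = y0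
      · subst e; simp; omega
      · simp [e, hxy.symm]
    rw [sum_congr rfl this, sum_add_distrib, sum_add_distrib]
    congr 1
    simp [hy0]
  have h6 := hZ Z hy0 hxZ
  rw [h5] at h6
  rw [sum_add_distrib] at h4
  omega

/-- A multigraph with a suitable vertex order is `k`-edge-colourable. -/
theorem peel {μ : V → V → ℕ} (hs : ∀ u v, μ u v = μ v u) (hd : ∀ v, μ v v = 0) (h : V → ℕ)
    (hdeg : ∀ x, ∑ w, μ x w ≤ k)
    (hp : ∀ x, ∃ z0, ∀ z, z ≠ x → h x ≤ h z →
      ∑ w ∈ univ.filter (fun w => h x ≤ h w), μ z w + μ x z ≤ k + if z = z0 then 1 else 0) :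
    ∃ m : Fin k → V → V, IsCol m μ := by
  classical
  have main : ∀ (n : ℕ) (ν : V → V → ℕ), (∀ u v, ν u v = ν v u) → (∀ u v, ν u v ≤ μ u v) →
      ∑ u, ∑ v, ν u v ≤ n → ∃ m : Fin k → V → V, IsCol m ν := by
    intro n
    induction n with
    | zero =>
      intro ν _ _ h0
      have h1 : ∀ u v, ν u v = 0 := by
        intro u v
        have a1 : ν u v ≤ ∑ v, ν u v := single_le_sum (fun _ _ => Nat.zero_le _) (mem_univ v)
        have a2 : ∑ v, ν u v ≤ ∑ u, ∑ v, ν u v :=
          single_le_sum (f := fun u => ∑ v, ν u v) (fun _ _ => Nat.zero_le _) (mem_univ u)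
        omega
      refine ⟨fun _ v => v, fun _ _ => rfl, ?_⟩
      intro u v huv
      rw [h1]
      simp [huv]
    | succ n ih =>
      intro ν hsν hle hsum
      by_cases hz : ∀ u v, ν u v = 0
      · refine ⟨fun _ v => v, fun _ _ => rfl, ?_⟩
        intro u v huv
        rw [hz]
        simp [huv]
      · obtain ⟨x, hxm, hxmin⟩ := exists_min_image (univ.filter (fun x => ∃ y, ν x y ≠ 0)) h (by
          push Not at hz
          obtain ⟨u, v, huv⟩ := hz
          exact ⟨u, by simpa using ⟨v, huv⟩⟩)
        obtain ⟨y0, hy0⟩ : ∃ y, ν x y ≠ 0 := by simpa using hxm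
        have hmin : ∀ w, h w < h x → ∀ v, ν w v = 0 := by
          intro w hw v
          by_contra hc
          have := hxmin w (by simpa using ⟨v, hc⟩)
          omega
        have hxy : y0 ≠ x := by
          rintro rfl
          have := hle y0 y0
          rw [hd] at this
          omega
        let ν' : V → V → ℕ := fun u v =>
          ν u v - if (u = x ∧ v = y0) ∨ (u = y0 ∧ v = x) then 1 else 0
        have hν : add ν' x y0 = ν := by
          funext u v
          unfold add
          simp only [ν']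
          by_cases hc : (u = x ∧ v = y0) ∨ (u = y0 ∧ v = x)
          · simp only [if_pos hc]
            have : 0 < ν u v := by
              rcases hc with ⟨rfl, rfl⟩ | ⟨rfl, rfl⟩
              · omega
              · rw [hsν]; omega
            omega
          · simp only [if_neg hc]; omega
        have hsym' : ∀ u v, ν' u v = ν' v u := by
          intro u v
          simp only [ν']
          rw [hsν u v]
          congr 2
          apply propext
          constructor
          · rintro (⟨a, b⟩ | ⟨a, b⟩)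
            · exact Or.inr ⟨b, a⟩
            · exact Or.inl ⟨b, a⟩
          · rintro (⟨a, b⟩ | ⟨a, b⟩)
            · exact Or.inr ⟨b, a⟩
            · exact Or.inl ⟨b, a⟩
        have hle' : ∀ u v, ν' u v ≤ ν u v := fun u v => Nat.sub_le _ _
        have hd' : ∀ v, ν' v v = 0 := by
          intro v
          have h1 := hle' v v
          have h2 := hle v v
          rw [hd] at h2
          omega
        have hlt : ∑ u, ∑ v, ν' u v < ∑ u, ∑ v, ν u v := by
          apply sum_lt_sum (fun u _ => sum_le_sum (fun v _ => hle' u v))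
          refine ⟨x, mem_univ x, sum_lt_sum (fun v _ => hle' x v) ⟨y0, mem_univ _, ?_⟩⟩
          simp only [ν']
          simp
          omega
        obtain ⟨m, hm⟩ := ih ν' hsym' (fun u v => (hle' u v).trans (hle u v)) (by omega)
        rw [← hν]
        refine fan hm hd' hxy ?_ ?_
        · rw [hν]
          exact (sum_le_sum (fun w _ => hle x w)).trans (hdeg x)
        · intro Z _ hxZ
          rw [hν]
          obtain ⟨z0, hz0⟩ := hp x
          have : ∀ z ∈ Z, ∑ w, ν z w + ν x z ≤ k + if z = z0 then 1 else 0 := by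
            intro z hz
            have hzx : z ≠ x := fun e => hxZ (e ▸ hz)
            by_cases hlt : h z < h x
            · have h1 : ∑ w, ν z w = 0 := sum_eq_zero (fun w _ => hmin z hlt w)
              have h2 : ν x z = 0 := by rw [hsν]; exact hmin z hlt x
              omega
            · refine le_trans ?_ (hz0 z hzx (not_lt.1 hlt))
              apply Nat.add_le_add _ (hle x z)
              rw [← sum_filter_add_sum_filter_not univ (fun w => h x ≤ h w)]
              have : ∑ w ∈ univ.filter (fun w => ¬ h x ≤ h w), ν z w = 0 := by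
                apply sum_eq_zero
                intro w hw
                rw [hsν]
                exact hmin w (by simpa using hw) z
              rw [this, add_zero]
              exact sum_le_sum (fun w _ => hle z w)
          refine (sum_le_sum this).trans ?_
          rw [sum_add_distrib, sum_const, smul_eq_mul, mul_comm]
          apply Nat.add_le_add_left
          rw [sum_ite_eq']
          split_ifs <;> simp
  exact main _ μ hs (fun _ _ => le_rfl) le_rfl

end Pool.Agent.Q251.WR
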