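import Pool.Agent.Q251.WR.Lab

/-! Edge labels for the whole graph, and edge colourings of generalised wreath products. -/

set_option autoImplicit false
set_option linter.all false

namespace Pool.Agent.Q251.WR

open Finset Classical

variable {W : Type*} [Fintype W]

theorem exists_good {H : SimpleGraph W} {r : Setoid W} {Δ K : ℕ}
    (hΔ : 1 ≤ Δ)
    (hK : ∀ u, #(univ.filter (fun v => H.Adj u v)) + Δ * #(univ.filter (fun v => r u v)) ≤ K)
    (hE : ∀ u v a, r u v → H.Adj u a → ∃ b, H.Adj v b ∧ r a b) :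
    ∃ (g : W → W → ℕ) (f : ℕ → W → W → ℕ), ∀ u, Good H r Δ K g f u := by
  let cm : W → (Qg H r).ConnectedComponent := fun u =>
    (Qg H r).connectedComponentMk (⟦u⟧ : Quotient r)
  have key : ∀ c : (Qg H r).ConnectedComponent, ∃ (g : W → W → ℕ) (f : ℕ → W → W → ℕ),
      ∀ u, cm u = c → Good H r Δ K g f u := by
    intro c
    by_cases hne : (univ.filter (fun u => cm u = c)).Nonempty
    swap
    · refine ⟨fun _ _ => 0, fun _ _ _ => 0, fun u hu => ?_⟩
      exact absurd ⟨u, by simpa using hu⟩ hne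
    obtain ⟨x1, hx1, hmin⟩ := exists_min_image _
      (fun x => #(univ.filter (fun v => H.Adj x v ∧ r x v))) hne
    have hx1c : cm x1 = c := by simpa using hx1
    obtain ⟨g, f, h⟩ := exists_good_comp (H := H) (r := r) (x1 := x1)
      (k := #(univ.filter (fun v => H.Adj x1 v ∧ r x1 v)) / 2) hΔ hK hE (by omega) (by omega) (by
        intro u hu
        have h1 : cm u = c := by
          rw [← hx1c]
          exact (SimpleGraph.ConnectedComponent.eq.2 hu).symm
        have h2 := hmin u (by simpa using h1)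
        have h3 : #(univ.filter (fun v => H.Adj u v ∧ r u v)) <
            #(univ.filter (fun v => r u v)) := by
          apply card_lt_card
          constructor
          · intro v hv
            simp only [mem_filter, mem_univ, true_and] at hv ⊢
            exact hv.2
          · intro hc
            have : u ∈ univ.filter (fun v => H.Adj u v ∧ r u v) := hc (by
              simp only [mem_filter, mem_univ, true_and]; exact r.refl u)
            simp at this
        omega)
    refine ⟨g, f, fun u hu => h u ?_⟩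
    rw [← hx1c] at hu
    exact SimpleGraph.ConnectedComponent.eq.1 hu.symm
  choose gC fC hgf using key
  have cadj : ∀ u v, H.Adj u v → cm v = cm u := by
    intro u v h
    refine (SimpleGraph.ConnectedComponent.eq.2 ?_).symm
    exact Cp_adj h (SimpleGraph.Reachable.refl _)
  have cr : ∀ u v, r u v → cm v = cm u := by
    intro u v h
    refine (SimpleGraph.ConnectedComponent.eq.2 ?_).symm
    exact Cp_r h (SimpleGraph.Reachable.refl _)
  refine ⟨fun u v => gC (cm u) u v, fun t u v => fC (cm u) t u v, fun u => ?_⟩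
  have h := hgf (cm u) u rfl
  refine ⟨?_, ?_, ?_, ?_, ?_, ?_, ?_, ?_⟩
  · intro v hv; exact h.gK v hv
  · intro t v ht hv; exact h.fK t v ht hv
  · intro v hv; rw [cadj u v hv]; exact h.gs v hv
  · intro v w hv hw; exact h.gg v w hv hw
  · intro t v w ht hv hw
    rw [cr u w hw]
    exact h.gf t v w ht hv hw
  · intro t v w ht hv hw
    exact h.ff t v w ht hv hw
  · intro t v w ht hv hw
    rw [cr u v hv, cr u w hw]
    exact h.ff' t v w ht hv hw
  · intro t t' v w ht ht' htt hv hw
    rw [cr u v hv, cr u w hw]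
    exact h.fd t t' v w ht ht' htt hv hw

/-- A properly coloured graph `G` with `Δ` colours and a graph with an orbit-like partition:
the generalised wreath product has a proper edge colouring with `K` colours. -/
theorem colour {V : Type*} [Fintype V] {G : SimpleGraph V} {H : SimpleGraph W} {r : Setoid W}
    {Δ K : ℕ} (hΔ : 1 ≤ Δ)
    (hK : ∀ u, #(univ.filter (fun v => H.Adj u v)) + Δ * #(univ.filter (fun v => r u v)) ≤ K)
    (hE : ∀ u v a, r u v → H.Adj u a → ∃ b, H.Adj v b ∧ r a b)
    (c : V → V → ℕ) (hc : ∀ x y, G.Adj x y → c x y < Δ) (hcs : ∀ x y, G.Adj x y → c x y = c y x)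
    (hcp : ∀ x y z, G.Adj x y → G.Adj x z → y ≠ z → c x y ≠ c x z)
    (P : SimpleGraph (V × W))
    (hP : ∀ p q, P.Adj p q ↔ (p.1 = q.1 ∧ H.Adj p.2 q.2) ∨ (G.Adj p.1 q.1 ∧ r p.2 q.2)) :
    ∃ col : V × W → V × W → ℕ, (∀ p q, P.Adj p q → col p q < K) ∧
      (∀ p q, P.Adj p q → col p q = col q p) ∧
      ∀ p q q', P.Adj p q → P.Adj p q' → q ≠ q' → col p q ≠ col p q' := by
  obtain ⟨g, f, hgf⟩ := exists_good hΔ hK hE
  let e := Fintype.equivFin V
  let col : V × W → V × W → ℕ := fun p q =>
    if p.1 = q.1 then g p.2 q.2 else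
      if e p.1 < e q.1 then f (c p.1 q.1) p.2 q.2 else f (c p.1 q.1) q.2 p.2
  have c1 : ∀ x u v, col (x, u) (x, v) = g u v := by intro x u v; simp [col]
  have c2 : ∀ x y u v, G.Adj x y → (col (x, u) (y, v) = f (c x y) u v ∧ e x < e y) ∨
      (col (x, u) (y, v) = f (c x y) v u ∧ e y < e x) := by
    intro x y u v h
    have hne : e x ≠ e y := fun e' => h.ne (e.injective e')
    rcases lt_or_gt_of_ne hne with h1 | h1
    · left; simp [col, h.ne, h1]
    · right; simp [col, h.ne, h1, not_lt.2 h1.le]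
  refine ⟨col, ?_, ?_, ?_⟩
  · rintro ⟨x, u⟩ ⟨y, v⟩ h
    rw [hP] at h
    rcases h with ⟨h1, h2⟩ | ⟨h1, h2⟩
    · simp only at h1 h2
      subst h1
      rw [c1]; exact (hgf u).gK v h2
    · simp only at h1 h2
      rcases c2 x y u v h1 with ⟨e1, _⟩ | ⟨e1, _⟩
      · rw [e1]; exact (hgf u).fK _ v (hc x y h1) h2
      · rw [e1]; exact (hgf v).fK _ u (hc x y h1) (r.symm h2)
  · rintro ⟨x, u⟩ ⟨y, v⟩ h
    rw [hP] at h
    rcases h with ⟨h1, h2⟩ | ⟨h1, h2⟩
    · simp only at h1 h2
      subst h1
      rw [c1, c1]; exact (hgf u).gs v h2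
    · simp only at h1 h2
      rcases c2 x y u v h1 with ⟨e1, l1⟩ | ⟨e1, l1⟩
      · rcases c2 y x v u h1.symm with ⟨e2, l2⟩ | ⟨e2, l2⟩
        · omega
        · rw [e1, e2, hcs x y h1]
      · rcases c2 y x v u h1.symm with ⟨e2, l2⟩ | ⟨e2, l2⟩
        · rw [e1, e2, hcs x y h1]
        · omega
  · rintro ⟨x, u⟩ ⟨y, v⟩ ⟨y', v'⟩ h h' hne heq
    rw [hP] at h h'
    simp only at h h'
    have key : ∀ (y y' : V) (v v' : W), (x = y ∧ H.Adj u v) → (G.Adj x y' ∧ r u v') →
        col (x, u) (y, v) ≠ col (x, u) (y', v') := by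
      rintro y y' v v' ⟨rfl, h2⟩ ⟨h3, h4⟩
      rw [c1]
      have := (hgf u).gf (c x y') v v' (hc _ _ h3) h2 h4
      rcases c2 x y' u v' h3 with ⟨e1, _⟩ | ⟨e1, _⟩
      · rw [e1]; exact this.1
      · rw [e1]; exact this.2
    rcases h with h | h
    · rcases h' with h' | h'
      · obtain ⟨rfl, h2⟩ := h
        obtain ⟨rfl, h4⟩ := h'
        rw [c1, c1] at heq
        exact hne (by rw [(hgf u).gg v v' h2 h4 heq])
      · exact key y y' v v' h h' heq
    · rcases h' with h' | h'
      · exact key y' y v' v h' h heq.symm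
      · obtain ⟨h1, h2⟩ := h
        obtain ⟨h3, h4⟩ := h'
        by_cases hyy : y = y'
        · subst hyy
          have hvv : v ≠ v' := fun e => hne (by rw [e])
          rcases c2 x y u v h1 with ⟨e1, l1⟩ | ⟨e1, l1⟩ <;>
            rcases c2 x y u v' h1 with ⟨e2, l2⟩ | ⟨e2, l2⟩
          · rw [e1, e2] at heq
            exact hvv ((hgf u).ff _ v v' (hc _ _ h1) h2 h4 heq)
          · omega
          · omega
          · rw [e1, e2] at heq
            exact hvv ((hgf u).ff' _ v v' (hc _ _ h1) h2 h4 heq)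
        · have hcc := hcp x y y' h1 h3 hyy
          have d1 := (hgf u).fd _ _ v v' (hc _ _ h1) (hc _ _ h3) hcc h2 h4
          have d2 := (hgf u).fd _ _ v' v (hc _ _ h3) (hc _ _ h1) hcc.symm h4 h2
          rcases c2 x y u v h1 with ⟨e1, _⟩ | ⟨e1, _⟩ <;>
            rcases c2 x y' u v' h3 with ⟨e2, _⟩ | ⟨e2, _⟩ <;> rw [e1, e2] at heq
          · exact d1.1 heq
          · exact d1.2.2 heq
          · exact d2.2.2 heq.symm
          · exact d1.2.1 heq

end Pool.Agent.Q251.WR
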