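import Pool.Agent.Q251.WR.Comp

/-! Edge labels for a graph with an orbit-like partition. -/

set_option autoImplicit false
set_option linter.all false

namespace Pool.Agent.Q251.WR

open Finset Classical

variable {W : Type*} [Fintype W]

/-- The labels at one vertex. -/
structure Good (H : SimpleGraph W) (r : Setoid W) (Δ K : ℕ) (g : W → W → ℕ)
    (f : ℕ → W → W → ℕ) (u : W) : Prop where
  gK : ∀ v, H.Adj u v → g u v < K
  fK : ∀ t v, t < Δ → r u v → f t u v < K
  gs : ∀ v, H.Adj u v → g u v = g v u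
  gg : ∀ v w, H.Adj u v → H.Adj u w → g u v = g u w → v = w
  gf : ∀ t v w, t < Δ → H.Adj u v → r u w → g u v ≠ f t u w ∧ g u v ≠ f t w u
  ff : ∀ t v w, t < Δ → r u v → r u w → f t u v = f t u w → v = w
  ff' : ∀ t v w, t < Δ → r u v → r u w → f t v u = f t w u → v = w
  fd : ∀ t t' v w, t < Δ → t' < Δ → t ≠ t' → r u v → r u w →
    f t u v ≠ f t' u w ∧ f t v u ≠ f t' w u ∧ f t u v ≠ f t' w u

/-- The code of a fresh colour. -/
def code (k : ℕ) (z : ℤ) : ℕ := if 0 < z then (z - 1).toNat else (k - z - 1).toNat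

theorem code_lt {k : ℕ} {z : ℤ} (h0 : z ≠ 0) (hz : |z| ≤ k) : code k z < 2 * k := by
  rw [abs_le] at hz
  unfold code
  split_ifs <;> omega

theorem code_inj {k : ℕ} {z z' : ℤ} (h0 : z ≠ 0) (hz : |z| ≤ k) (h0' : z' ≠ 0) (hz' : |z'| ≤ k)
    (h : code k z = code k z') : z = z' := by
  rw [abs_le] at hz hz'
  unfold code at h
  split_ifs at h <;> omega

/-- The fresh label. -/
noncomputable def fr (k : ℕ) (sh : ℤ → W → W) (u v : W) : ℕ :=
  if h : Rr k sh u v then code k h.choose else 0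

theorem exists_good_comp {H : SimpleGraph W} {r : Setoid W} {x1 : W} {k Δ K : ℕ}
    (hΔ : 1 ≤ Δ)
    (hK : ∀ u, #(univ.filter (fun v => H.Adj u v)) + Δ * #(univ.filter (fun v => r u v)) ≤ K)
    (hE : ∀ u v a, r u v → H.Adj u a → ∃ b, H.Adj v b ∧ r a b)
    (hk : 2 * k ≤ #(univ.filter (fun v => H.Adj x1 v ∧ r x1 v)))
    (hk' : #(univ.filter (fun v => H.Adj x1 v ∧ r x1 v)) ≤ 2 * k + 1)
    (hC : ∀ u, Cp H r x1 u → 2 * k < #(univ.filter (fun v => r u v))) :
    ∃ (g : W → W → ℕ) (f : ℕ → W → W → ℕ), ∀ u, Cp H r x1 u → Good H r Δ K g f u := by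
  obtain ⟨sh, s1, s2, s3, s4, s5⟩ := exists_sh H r x1 k hk
  have S : Sh H r x1 k sh := ⟨s1, s2, s3, s4, s5⟩
  obtain ⟨m, hm⟩ := exists_mu S hΔ hK hE hk' hC
  have h2k : ∀ u, Cp H r x1 u → 2 * k ≤ K := by
    intro u hu
    have h1 := mu_deg S hΔ hu (hC u hu)
    have h2 := hK u
    omega
  let A : W → W → Finset (Fin (K - 2 * k)) := fun u v => univ.filter (fun α => m α u = v)
  have hA : ∀ u v α, α ∈ A u v ↔ m α u = v := by intro u v α; simp [A]
  have hAs : ∀ u v, A u v = A v u := by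
    intro u v
    ext α
    rw [hA, hA]
    exact ⟨fun e => hm.symm e, fun e => hm.symm e⟩
  have hAc : ∀ u v, u ≠ v → #(A u v) = mu H r x1 k Δ sh u v := fun u v h => hm.cnt u v h
  have hAu : ∀ u, Cp H r x1 u → Δ ≤ #(A u u) := by
    intro u hu
    have h0 := hm.miss mu_self u
    have h1 := mu_deg S hΔ hu (hC u hu)
    have h2 := hK u
    show Δ ≤ #(univ.filter (fun α => m α u = u))
    omega
  let lab : W → W → ℕ → ℕ := fun u v i => en (A u v) i
  have labs : ∀ u v i, lab u v i = lab v u i := by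
    intro u v i; simp only [lab]; rw [hAs]
  have lab_lt : ∀ u v i, i < #(A u v) → lab u v i < K - 2 * k := by
    intro u v i h
    obtain ⟨α, _, h2⟩ := en_mem (A u v) h
    simp only [lab]
    rw [← h2]; exact α.2
  have lab_inj : ∀ u v w i j, i < #(A u v) → j < #(A u w) → lab u v i = lab u w j →
      v = w ∧ i = j := by
    intro u v w i j hi hj e
    obtain ⟨α, a1, a2⟩ := en_mem (A u v) hi
    obtain ⟨β, b1, b2⟩ := en_mem (A u w) hj
    have e1 : α = β := Fin.ext (by rw [a2, b2]; exact e)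
    subst e1
    rw [hA] at a1 b1
    have e2 : v = w := a1.symm.trans b1
    subst e2
    exact ⟨rfl, en_inj _ hi hj e⟩
  -- the index
  let ix : ℕ → W → W → ℕ := fun t u v =>
    (if H.Adj u v then 1 else 0) + t - (if Rr k sh u v then 1 else 0)
  have ixs : ∀ t u v, ix t u v = ix t v u := by
    intro t u v
    simp only [ix]
    have hA : H.Adj u v ↔ H.Adj v u := H.adj_comm u v
    have hR : Rr k sh u v ↔ Rr k sh v u := ⟨S.rsymm, S.rsymm⟩
    simp only [hA, hR]
  have hRs : ∀ u v, Rr k sh u v → Rr k sh v u := fun u v h => S.rsymm h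
  have hRn : ∀ (t : ℕ) u v, ¬ (t = 0 ∧ Rr k sh v u) → ¬ (t = 0 ∧ Rr k sh u v) :=
    fun t u v h e => h ⟨e.1, hRs _ _ e.2⟩
  have ix_lt : ∀ t u v, Cp H r x1 u → r u v → t < Δ → ¬ (t = 0 ∧ Rr k sh u v) →
      ix t u v < #(A u v) := by
    intro t u v hu hr ht hc
    by_cases e : u = v
    · subst e
      have h1 := hAu u hu
      simp only [ix, if_neg (H.loopless.irrefl u), if_neg (S.irr (hC u hu))]
      omega
    · rw [hAc u v e]
      unfold mu
      rw [if_pos ⟨hu, e⟩, if_pos hr]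
      simp only [ix]
      by_cases hR : Rr k sh u v
      · have : t ≠ 0 := fun e => hc ⟨e, hR⟩
        rw [if_pos hR]
        omega
      · rw [if_neg hR]
        omega
  have adj_lt : ∀ u v, Cp H r x1 u → H.Adj u v → 0 < #(A u v) := by
    intro u v hu h
    rw [hAc u v h.ne]
    unfold mu
    rw [if_pos ⟨hu, h.ne⟩, if_pos h]
    omega
  have frc : ∀ u v, Rr k sh u v → ∃ z : ℤ, z ≠ 0 ∧ |z| ≤ k ∧ sh z u = v ∧ fr k sh u v = code k z := by
    intro u v h
    refine ⟨h.choose, h.choose_spec.1, h.choose_spec.2.1, h.choose_spec.2.2, ?_⟩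
    unfold fr; rw [dif_pos h]
  have fr_lt : ∀ u v, Rr k sh u v → fr k sh u v < 2 * k := by
    intro u v h
    obtain ⟨z, h1, h2, _, h4⟩ := frc u v h
    rw [h4]; exact code_lt h1 h2
  have fr_inj : ∀ u v w, Rr k sh u v → Rr k sh u w → fr k sh u v = fr k sh u w → v = w := by
    intro u v w h h' e
    obtain ⟨z, h1, h2, h3, h4⟩ := frc u v h
    obtain ⟨z', h1', h2', h3', h4'⟩ := frc u w h'
    rw [h4, h4'] at e
    have := code_inj h1 h2 h1' h2' e
    subst this
    exact h3.symm.trans h3'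
  have fr_inj' : ∀ u v w, Rr k sh v u → Rr k sh w u → fr k sh v u = fr k sh w u → v = w := by
    intro u v w h h' e
    obtain ⟨z, h1, h2, h3, h4⟩ := frc v u h
    obtain ⟨z', h1', h2', h3', h4'⟩ := frc w u h'
    rw [h4, h4'] at e
    have := code_inj h1 h2 h1' h2' e
    subst this
    have e1 : sh (-z) (sh z v) = sh (-z) (sh z w) := by rw [h3, h3']
    rw [S.s3, S.s3] at e1
    simpa [S.s2] using e1
  let f : ℕ → W → W → ℕ := fun t u v =>
    if t = 0 ∧ Rr k sh u v then K - 2 * k + fr k sh u v else lab u v (ix t u v)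
  have f1 : ∀ t u v, (t = 0 ∧ Rr k sh u v) → f t u v = K - 2 * k + fr k sh u v := by
    intro t u v h; simp only [f]; rw [if_pos h]
  have f2 : ∀ t u v, ¬ (t = 0 ∧ Rr k sh u v) → f t u v = lab u v (ix t u v) := by
    intro t u v h; simp only [f]; rw [if_neg h]
  refine ⟨fun u v => lab u v 0, f, fun u hu => ?_⟩
  have hKk := h2k u hu
  refine ⟨?_, ?_, ?_, ?_, ?_, ?_, ?_, ?_⟩
  · intro v h
    have := lab_lt u v 0 (adj_lt u v hu h)
    show lab u v 0 < K
    omega
  · intro t v ht hr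
    by_cases hc : t = 0 ∧ Rr k sh u v
    · rw [f1 _ _ _ hc]
      have := fr_lt u v hc.2
      omega
    · rw [f2 _ _ _ hc]
      have := lab_lt u v _ (ix_lt t u v hu hr ht hc)
      omega
  · intro v h
    exact labs u v 0
  · intro v w h h' e
    exact (lab_inj u v w 0 0 (adj_lt u v hu h) (adj_lt u w hu h') e).1
  · intro t v w ht hv hw
    have h0 := adj_lt u v hu hv
    have h1 := lab_lt u v 0 h0
    have key : ∀ (hc : ¬ (t = 0 ∧ Rr k sh u w)), lab u v 0 ≠ lab u w (ix t u w) := by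
      intro hc e
      obtain ⟨e1, e2⟩ := lab_inj u v w 0 _ h0 (ix_lt t u w hu hw ht hc) e
      subst e1
      simp only [ix, if_pos hv] at e2
      by_cases hR : Rr k sh u v
      · rw [if_pos hR] at e2
        exact hc ⟨by omega, hR⟩
      · rw [if_neg hR] at e2; omega
    constructor
    · by_cases hc : t = 0 ∧ Rr k sh u w
      · rw [f1 _ _ _ hc]; show lab u v 0 ≠ _; omega
      · rw [f2 _ _ _ hc]; exact key hc
    · by_cases hc : t = 0 ∧ Rr k sh w u
      · rw [f1 _ _ _ hc]; show lab u v 0 ≠ _; omega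
      · rw [f2 _ _ _ hc, labs w u, ixs t w u]
        exact key (fun e => hc ⟨e.1, hRs _ _ e.2⟩)
  · intro t v w ht hv hw e
    by_cases hc : t = 0 ∧ Rr k sh u v
    · rw [f1 _ _ _ hc] at e
      by_cases hc' : t = 0 ∧ Rr k sh u w
      · rw [f1 _ _ _ hc'] at e
        exact fr_inj u v w hc.2 hc'.2 (by omega)
      · rw [f2 _ _ _ hc'] at e
        have := lab_lt u w _ (ix_lt t u w hu hw ht hc')
        omega
    · rw [f2 _ _ _ hc] at e
      have h1 := lab_lt u v _ (ix_lt t u v hu hv ht hc)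
      by_cases hc' : t = 0 ∧ Rr k sh u w
      · rw [f1 _ _ _ hc'] at e
        omega
      · rw [f2 _ _ _ hc'] at e
        exact (lab_inj u v w _ _ (ix_lt t u v hu hv ht hc) (ix_lt t u w hu hw ht hc') e).1
  · intro t v w ht hv hw e
    by_cases hc : t = 0 ∧ Rr k sh v u
    · rw [f1 _ _ _ hc] at e
      by_cases hc' : t = 0 ∧ Rr k sh w u
      · rw [f1 _ _ _ hc'] at e
        exact fr_inj' u v w hc.2 hc'.2 (by omega)
      · rw [f2 _ _ _ hc', labs w u, ixs t w u] at e
        have := lab_lt u w _ (ix_lt t u w hu hw ht (hRn _ _ _ hc'))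
        omega
    · rw [f2 _ _ _ hc, labs v u, ixs t v u] at e
      have h1 := lab_lt u v _ (ix_lt t u v hu hv ht (hRn _ _ _ hc))
      by_cases hc' : t = 0 ∧ Rr k sh w u
      · rw [f1 _ _ _ hc'] at e
        omega
      · rw [f2 _ _ _ hc', labs w u, ixs t w u] at e
        exact (lab_inj u v w _ _ (ix_lt t u v hu hv ht (hRn _ _ _ hc))
          (ix_lt t u w hu hw ht (hRn _ _ _ hc')) e).1
  · intro t t' v w ht ht' htt hv hw
    -- normal form of labels at `u`
    have nf : ∀ t, t < Δ → ∀ v, r u v → ∀ a, (a = f t u v ∨ a = f t v u) →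
        (t = 0 ∧ K - 2 * k ≤ a) ∨ (a = lab u v (ix t u v) ∧ a < K - 2 * k ∧
          ¬ (t = 0 ∧ Rr k sh u v)) := by
      intro t ht v hv a ha
      rcases ha with rfl | rfl
      · by_cases hc : t = 0 ∧ Rr k sh u v
        · rw [f1 _ _ _ hc]; exact Or.inl ⟨hc.1, by omega⟩
        · rw [f2 _ _ _ hc]
          exact Or.inr ⟨rfl, lab_lt u v _ (ix_lt t u v hu hv ht hc), hc⟩
      · by_cases hc : t = 0 ∧ Rr k sh v u
        · rw [f1 _ _ _ hc]; exact Or.inl ⟨hc.1, by omega⟩
        · rw [f2 _ _ _ hc, labs v u, ixs t v u]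
          exact Or.inr ⟨rfl, lab_lt u v _ (ix_lt t u v hu hv ht (hRn _ _ _ hc)), hRn _ _ _ hc⟩
    have key : ∀ a b, (a = f t u v ∨ a = f t v u) → (b = f t' u w ∨ b = f t' w u) → a ≠ b := by
      intro a b ha hb hab
      subst hab
      rcases nf t ht v hv a ha with ⟨h1, h2⟩ | ⟨h1, h2, h3⟩
      · rcases nf t' ht' w hw a hb with ⟨h1', h2'⟩ | ⟨h1', h2', h3'⟩
        · exact htt (h1.trans h1'.symm)
        · omega
      · rcases nf t' ht' w hw a hb with ⟨h1', h2'⟩ | ⟨h1', h2', h3'⟩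
        · omega
        · obtain ⟨e1, e2⟩ := lab_inj u v w _ _ (ix_lt t u v hu hv ht h3)
            (ix_lt t' u w hu hw ht' h3') (h1.symm.trans h1')
          subst e1
          simp only [ix] at e2
          by_cases hR : Rr k sh u v
          · rw [if_pos hR] at e2
            have : t ≠ 0 := fun e => h3 ⟨e, hR⟩
            have : t' ≠ 0 := fun e => h3' ⟨e, hR⟩
            omega
          · rw [if_neg hR] at e2; omega
    exact ⟨key _ _ (Or.inl rfl) (Or.inl rfl), key _ _ (Or.inr rfl) (Or.inr rfl),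
      key _ _ (Or.inl rfl) (Or.inr rfl)⟩

end Pool.Agent.Q251.WR
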